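import Mathlib
import Pool.Agent.MP_6c43ae_an.ct.All

/-! Every closed totally disconnected subset of the Riemann sphere is the exact set of points of
non-analyticity of a positively curved smooth metric whose Bergman kernels decay exponentially off
the diagonal. -/

set_option autoImplicit false

open scoped Manifold ContDiff
open Pool.Agent.MP_6c43ae_an

namespace Pool.Agent.Results.MP_6c43ae_an.CantorSets

theorem result :
    ∃ (M : Type) (_ : TopologicalSpace M) (_ : ChartedSpace ℂ M) (_ : IsManifold 𝓘(ℂ, ℂ) ω M)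
      (_ : CompactSpace M) (_ : T2Space M) (_ : ConnectedSpace M)
      (_ : MeasurableSpace M) (_ : BorelSpace M)
      (ι : Type) (L : VectorBundleCore ℂ M ℂ ι) (_ : L.IsContMDiff 𝓘(ℂ, ℂ) ω)
      (μ : MeasureTheory.Measure M), IsSmoothVolume μ ∧
      ∀ Z : Set M, IsClosed Z → IsTotallyDisconnected Z → ∃ h : ι → M → ℝ,
        IsPositiveMetric L h ∧
        (∀ k : ℕ, ∃ (N : ℕ) (s : Fin N → ι → M → ℂ), IsOrthonormalBasis L h μ k N s) ∧
        (∀ d : M → M → ℝ, Continuous (Function.uncurry d) → (∀ x, d x x = 0) →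
          ∀ δ : ℝ, 0 < δ → ∃ c₁ c₂ : ℝ, 0 < c₁ ∧ 0 < c₂ ∧
            ∀ k : ℕ, 1 ≤ k → ∀ (N : ℕ) (s : Fin N → ι → M → ℂ), IsOrthonormalBasis L h μ k N s →
              ∀ z w : M, δ < d z w → bergmanNorm L h k N s z w ≤ c₁ * Real.exp (-c₂ * k)) ∧
        ∀ x : M, IsAnalyticMetricAt L h x ↔ x ∉ Z := by
  refine ⟨OnePoint ℂ, inferInstance, chartedSphere, manifoldSphere, inferInstance, inferInstance,
    inferInstance, measurableSphere, borelSphere, Bool, LL, LL_isContMDiff, mu, isSmoothVolume_mu,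
    fun Z hZ hd => ?_⟩
  obtain ⟨h, hh, ha⟩ := Ct.exists_metric (Ct.fl_main Ct.an) Ct.na Ct.gr Ct.mt hZ hd
  refine ⟨h, hh, Ct.onb hh isSmoothVolume_mu, fun d hc h0 δ hδ => ?_, ha⟩
  obtain ⟨c₁, c₂, h1, h2, H⟩ := Ct.dec_of_td Ct.sd Ct.sp Ct.mn' hh isSmoothVolume_mu hZ hd
    (fun y hy => ⟨(ha y).2 hy, Ct.isAnalyticVolumeAt_mu y⟩) hc h0 hδ
  exact ⟨c₁, c₂, h1, h2, fun k hk N s hs z w hzw => H k hk N s hs (z, w) hzw.le⟩

/-- The negated form of Q1 is the case of one point. -/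
theorem q1 :
    ∃ (M : Type) (_ : TopologicalSpace M) (_ : ChartedSpace ℂ M) (_ : IsManifold 𝓘(ℂ, ℂ) ω M)
      (_ : CompactSpace M) (_ : T2Space M) (_ : ConnectedSpace M)
      (_ : MeasurableSpace M) (_ : BorelSpace M)
      (ι : Type) (L : VectorBundleCore ℂ M ℂ ι) (_ : L.IsContMDiff 𝓘(ℂ, ℂ) ω)
      (h : ι → M → ℝ) (μ : MeasureTheory.Measure M),
      IsPositiveMetric L h ∧ IsSmoothVolume μ ∧
      (∀ k : ℕ, ∃ (N : ℕ) (s : Fin N → ι → M → ℂ), IsOrthonormalBasis L h μ k N s) ∧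
      (∀ d : M → M → ℝ, Continuous (Function.uncurry d) → (∀ x, d x x = 0) →
        ∀ δ : ℝ, 0 < δ → ∃ c₁ c₂ : ℝ, 0 < c₁ ∧ 0 < c₂ ∧
          ∀ k : ℕ, 1 ≤ k → ∀ (N : ℕ) (s : Fin N → ι → M → ℂ), IsOrthonormalBasis L h μ k N s →
            ∀ z w : M, δ < d z w → bergmanNorm L h k N s z w ≤ c₁ * Real.exp (-c₂ * k)) ∧
      ¬ IsAnalyticMetric L h := by
  obtain ⟨M, i1, i2, i3, i4, i5, i6, i7, i8, ι, L, i9, μ, hμ, H⟩ := result
  obtain ⟨p⟩ : Nonempty M := inferInstance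
  obtain ⟨h, h1, h2, h3, h4⟩ := H {p} isClosed_singleton isTotallyDisconnected_singleton
  exact ⟨M, i1, i2, i3, i4, i5, i6, i7, i8, ι, L, i9, h, μ, h1, hμ, h2, h3,
    fun ha => (h4 p).1 (fun i hi => ha i p hi) rfl⟩

end Pool.Agent.Results.MP_6c43ae_an.CantorSets
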