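import Mathlib
import Pool.Agent.MP_6c43ae_an.tr.All

/-! For torus invariant data on a toric manifold, exponential off-diagonal decay of the Bergman
kernels forces the metric to be real analytic on the open orbit. -/

set_option autoImplicit false

open scoped Manifold ContDiff
open Pool.Agent.MP_6c43ae_an

namespace Pool.Agent.Results.MP_6c43ae_an.ToricConverse

theorem result (n : ℕ) (M : Type) [TopologicalSpace M] [ChartedSpace (Fin n → ℂ) M]
    [IsManifold 𝓘(ℂ, Fin n → ℂ) ω M] [CompactSpace M] [T2Space M] [MeasurableSpace M]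
    [BorelSpace M] (ι : Type) (L : VectorBundleCore ℂ M ℂ ι)
    (_ : L.IsContMDiff 𝓘(ℂ, Fin n → ℂ) ω) (h : ι → M → ℝ) (μ : MeasureTheory.Measure M)
    (hh : IsPosMetric n L h) (hμ : IsSmoothVol n μ)
    (c : OpenPartialHomeomorph M (Fin n → ℂ)) (i : ι) (hc : IsToricChart n L h μ c i)
    (d : M → M → ℝ) (hd : Continuous (Function.uncurry d)) (hd0 : ∀ x y, x ≠ y → 0 < d x y)
    (hdec : ∀ δ : ℝ, 0 < δ → ∃ c₁ c₂ : ℝ, 0 < c₁ ∧ 0 < c₂ ∧ ∃ᶠ k : ℕ in Filter.atTop,
      ∀ (N : ℕ) (s : Fin N → ι → M → ℂ), IsOnb n L h μ k N s →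
        ∀ z w : M, δ < d z w → bergmanNorm L h k N s z w ≤ c₁ * Real.exp (-c₂ * k)) :
    ∀ z ∈ c.target, AnalyticAt ℝ (fun y => h i (c.symm y)) z :=
  Tr.toric2 hh hμ hc hd hd0 hdec

end Pool.Agent.Results.MP_6c43ae_an.ToricConverse
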